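import Pool.Agent.QUD.StmtsX

/-! Row N4I of the squad QUD (MP_5b0138_an, block X). -/

set_option autoImplicit false

namespace Pool.Agent.QUD.H96X

open MeasureTheory Complex Filter Topology ProbabilityTheory Pool.Agent.H16Iso Pool.Agent.H62T
open Pool.Agent.H16F (Sublin ind Nm CP len qa c0 Ar MatchStatement AlgStatement IsoStatement
  RunStatement CombStatement)
open Pool.Agent.AEU Pool.Agent.XQ

/-- half angle formula -/
theorem tan_half {b : ℝ} (h0 : 0 < b) (h1 : b < Real.pi) :
    (1 - Real.cos b) / Real.sin b = Real.tan (b / 2) ∧ 0 < Real.tan (b / 2) ∧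
      0 < Real.cos (b / 2) ∧ 0 < Real.sin (b / 2) := by
  have hs : 0 < Real.sin (b / 2) := Real.sin_pos_of_pos_of_lt_pi (by linarith) (by linarith)
  have hc : 0 < Real.cos (b / 2) := Real.cos_pos_of_mem_Ioo ⟨by linarith, by linarith⟩
  have e1 : Real.sin b = 2 * Real.sin (b / 2) * Real.cos (b / 2) := by
    rw [← Real.sin_two_mul]; ring_nf
  have e2 : Real.cos b = 1 - 2 * Real.sin (b / 2) ^ 2 := by
    have h := Real.cos_two_mul (b / 2)
    have h3 := Real.sin_sq_add_cos_sq (b / 2)
    rw [show 2 * (b / 2) = b by ring] at h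
    nlinarith
  refine ⟨?_, ?_, hc, hs⟩
  · rw [e1, e2, Real.tan_eq_sin_div_cos]
    field_simp
    ring
  · rw [Real.tan_eq_sin_div_cos]; positivity

/-- the cotangent sum and the gain of the tangents -/
theorem gain {b c : ℝ} (hb : 0 < b) (hc : 0 < c) (h : b + c < Real.pi) :
    0 < Real.sin (b + c) / (Real.sin b * Real.sin c) ∧
    Real.cos b / Real.sin b + Real.cos c / Real.sin c
      = Real.sin (b + c) / (Real.sin b * Real.sin c) ∧
    Real.tan (b / 2) + Real.tan (c / 2) + (Real.tan (b / 2) + Real.tan (c / 2)) ^ 2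
      / (2 * (Real.sin (b + c) / (Real.sin b * Real.sin c))) = Real.tan ((b + c) / 2) := by
  have sb : 0 < Real.sin b := Real.sin_pos_of_pos_of_lt_pi hb (by linarith)
  have sc : 0 < Real.sin c := Real.sin_pos_of_pos_of_lt_pi hc (by linarith)
  have sbc : 0 < Real.sin (b + c) := Real.sin_pos_of_pos_of_lt_pi (by linarith) h
  obtain ⟨-, -, hcb, hsb⟩ := tan_half hb (by linarith : b < Real.pi)
  obtain ⟨-, -, hcc, hsc⟩ := tan_half hc (by linarith : c < Real.pi)
  refine ⟨by positivity, ?_, ?_⟩
  · rw [Real.sin_add]; field_simp; ring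
  · have hcbc : 0 < Real.cos ((b + c) / 2) :=
      Real.cos_pos_of_mem_Ioo ⟨by linarith, by linarith⟩
    have e0 : Real.sin (b + c) = 2 * Real.sin ((b + c) / 2) * Real.cos ((b + c) / 2) := by
      rw [← Real.sin_two_mul]; ring_nf
    have e1 : Real.sin b = 2 * Real.sin (b / 2) * Real.cos (b / 2) := by
      rw [← Real.sin_two_mul]; ring_nf
    have e2 : Real.sin c = 2 * Real.sin (c / 2) * Real.cos (c / 2) := by
      rw [← Real.sin_two_mul]; ring_nf
    have hss : 0 < Real.sin ((b + c) / 2) :=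
      Real.sin_pos_of_pos_of_lt_pi (by linarith) (by linarith)
    have e3 : Real.sin ((b + c) / 2) = Real.sin (b / 2) * Real.cos (c / 2)
        + Real.cos (b / 2) * Real.sin (c / 2) := by
      rw [← Real.sin_add]; ring_nf
    have e4 : Real.cos ((b + c) / 2) = Real.cos (b / 2) * Real.cos (c / 2)
        - Real.sin (b / 2) * Real.sin (c / 2) := by
      rw [← Real.cos_add]; ring_nf
    have e5 : Real.tan (b / 2) + Real.tan (c / 2)
        = Real.sin ((b + c) / 2) / (Real.cos (b / 2) * Real.cos (c / 2)) := by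
      rw [Real.tan_eq_sin_div_cos, Real.tan_eq_sin_div_cos, e3]
      field_simp
    have e6 : (Real.tan (b / 2) + Real.tan (c / 2)) ^ 2
        / (2 * (Real.sin (b + c) / (Real.sin b * Real.sin c)))
        = Real.sin ((b + c) / 2) * (Real.sin (b / 2) * Real.sin (c / 2))
          / (Real.cos (b / 2) * Real.cos (c / 2) * Real.cos ((b + c) / 2)) := by
      rw [e5, e0, e1, e2]
      field_simp
    rw [e6, e5, Real.tan_eq_sin_div_cos ((b + c) / 2)]
    have hne : Real.cos ((b + c) / 2) ≠ 0 := hcbc.ne'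
    rw [div_add_div _ _ (by positivity) (by positivity), div_eq_div_iff (by positivity) hne]
    have e7 : Real.cos ((b + c) / 2) + Real.sin (b / 2) * Real.sin (c / 2)
        = Real.cos (b / 2) * Real.cos (c / 2) := by rw [e4]; ring
    linear_combination (Real.sin ((b + c) / 2) * Real.cos (b / 2) * Real.cos (c / 2)
      * Real.cos ((b + c) / 2)) * e7

theorem three_le {n : ℕ} [NeZero n] {u : Fin n → ℂ} {β : Fin n → ℝ} (h : Nm u β) : 3 ≤ n := by
  by_contra hn
  push Not at hn
  have h1 : ∑ i, β i ≤ ∑ _i : Fin n, Real.pi := Finset.sum_le_sum fun i _ => (h.lt i).le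
  have h2 : ∑ i, β i < ∑ _i : Fin n, Real.pi :=
    Finset.sum_lt_sum (fun i _ => (h.lt i).le) ⟨0, Finset.mem_univ _, h.lt 0⟩
  rw [h.sum] at h2
  simp only [Finset.sum_const, Finset.card_univ, Fintype.card_fin, nsmul_eq_mul] at h2
  have h3 : (n : ℝ) ≤ 2 := by exact_mod_cast (by omega : n ≤ 2)
  nlinarith [Real.pi_pos]

theorem ne_succ {n : ℕ} [NeZero n] (hn : 3 ≤ n) (i : Fin n) :
    i - 1 ≠ i ∧ i + 1 ≠ i := by
  have h1 : (1 : Fin n) ≠ 0 := by
    intro h
    have := congrArg Fin.val h
    rw [Fin.val_one', Fin.val_zero, Nat.mod_eq_of_lt (by omega)] at this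
    omega
  constructor
  · intro h; apply h1; simpa using h
  · intro h; apply h1; simpa using h

theorem n4i (hM : MnkStmt) (hA : AlgStatement) : N4iStmt := by
  intro n _ u H β hP i hlt
  have hn := three_le hP.toNm
  obtain ⟨hi1, hi2⟩ := ne_succ hn i
  obtain ⟨A1, A2, A3, -, -, -⟩ := hA n u β hP.toNm
  set b := β (i - 1) with hb
  set c := β i with hc
  have hb0 : 0 < b := hP.pos _
  have hc0 : 0 < c := hP.pos _
  have hb1 : b < Real.pi := hP.lt _
  have hc1 : c < Real.pi := hP.lt _
  obtain ⟨hK, hcot, hgain⟩ := gain hb0 hc0 hlt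
  set K := Real.sin (b + c) / (Real.sin b * Real.sin c) with hKdef
  have sb : 0 < Real.sin b := Real.sin_pos_of_pos_of_lt_pi hb0 hb1
  have sc : 0 < Real.sin c := Real.sin_pos_of_pos_of_lt_pi hc0 hc1
  have sbc : 0 < Real.sin (b + c) := Real.sin_pos_of_pos_of_lt_pi (by linarith) hlt
  set l := len β H i with hl
  set m := mx b c with hm
  have hmval : m = Real.tan (b / 2) + Real.tan (c / 2) := rfl
  obtain ⟨htb, htb0, -, -⟩ := tan_half hb0 hb1
  obtain ⟨htc, htc0, -, -⟩ := tan_half hc0 hc1
  have hm0 : 0 < m := by rw [hmval]; linarith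
  set s := sx b c l with hs
  have hsK : s * K = l := by
    rw [hs, hKdef]; unfold sx; field_simp
  set t := m / K with ht
  have htK : t * K = m := by rw [ht]; field_simp
  have ht0 : 0 < t := by rw [ht]; positivity
  set δ : Fin n → ℝ := fun j => if j = i then 1 else 0 with hδ
  have hδi : δ i = 1 := by simp [hδ]
  have hδ1 : δ (i - 1) = 0 := by simp [hδ, hi1]
  have hδ2 : δ (i + 1) = 0 := by simp [hδ, hi2]
  have sumδ : ∀ f : Fin n → ℝ, ∑ j, f j * δ j = f i := by
    intro f; simp [hδ]
  have hlenδ : len β δ i = -K := by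
    unfold len
    rw [hδi, hδ1, hδ2, ← hb, ← hc]
    rw [← hcot]; ring
  have hqδ : qa β δ = -K / 2 := by rw [A2, sumδ, hlenδ]
  -- the shifted body
  have hH' : qa β (fun j => H j - (-s) * δ j) = qa β H + s * l / 2 := by
    rw [A1, sumδ, hqδ, ← hl]
    have : s ^ 2 * K = s * l := by rw [← hsK]; ring
    linear_combination (-1 / 2) * this
  have hlen' : len β (fun j => H j - (-s) * δ j) i = 0 := by
    have : len β (fun j => H j - (-s) * δ j) i = len β H i + s * len β δ i := by
      unfold len; ring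
    rw [this, hlenδ, ← hl, ← hsK]; ring
  have hsum' : ∑ j, len β (fun j => H j - (-s) * δ j) j = ∑ j, len β H j + s * m := by
    rw [A3, A3 H]
    have : ∀ j, (H j - (-s) * δ j) * (Real.tan (β (j - 1) / 2) + Real.tan (β j / 2))
        = H j * (Real.tan (β (j - 1) / 2) + Real.tan (β j / 2))
          + (s * (Real.tan (β (j - 1) / 2) + Real.tan (β j / 2))) * δ j := by
      intro j; ring
    rw [Finset.sum_congr rfl fun j _ => this j, Finset.sum_add_distrib, sumδ, hmval, hb, hc]
  -- the gauge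
  have hlen1 : len β (fun _ => (1 : ℝ)) i = m := by
    unfold len
    rw [← hb, ← hc, hmval, ← htb, ← htc]
    ring
  have hq1 : qa β (fun _ => (1 : ℝ)) = ∑ j, Real.tan (β j / 2) := by
    have e1 : ∑ j, len β (fun _ => (1 : ℝ)) j = 2 * ∑ j, Real.tan (β j / 2) := by
      rw [A3]
      simp only [one_mul]
      rw [Finset.sum_add_distrib]
      have : ∑ j : Fin n, Real.tan (β (j - 1) / 2) = ∑ j, Real.tan (β j / 2) :=
        Equiv.sum_comp (Equiv.subRight (1 : Fin n)) fun j => Real.tan (β j / 2)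
      rw [this]; ring
    rw [A2]
    simp only [mul_one]
    rw [e1]; ring
  have hTx : ∑ j, Real.tan (β j / 2) + t * m / 2 = Tx β i := by
    have e1 : ∑ j, Real.tan (β j / 2) = ∑ j ∈ Finset.univ \ {i - 1, i}, Real.tan (β j / 2)
        + (Real.tan (b / 2) + Real.tan (c / 2)) := by
      rw [← Finset.sum_sdiff (Finset.subset_univ ({i - 1, i} : Finset (Fin n)))]
      rw [Finset.sum_pair hi1]
    unfold Tx
    rw [e1, ← hb, ← hc, ← hgain, ← hmval, ht]
    field_simp
    ring
  have hg : qa β (fun j => (1 : ℝ) - (-t) * δ j) = Tx β i := by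
    have h1 := A1 (fun _ => (1 : ℝ)) δ (-t)
    rw [h1, sumδ, hqδ, hlen1, hq1, ← hTx]
    have : t ^ 2 * K = t * m := by rw [← htK]; ring
    linear_combination (-1 / 2) * this
  have hTx0 : 0 < Tx β i := by
    unfold Tx
    have h1 : 0 < Real.tan ((β (i - 1) + β i) / 2) :=
      Real.tan_pos_of_pos_of_lt_pi_div_two (by rw [← hb, ← hc]; linarith)
        (by rw [← hb, ← hc]; linarith)
    have h2 : 0 ≤ ∑ j ∈ Finset.univ \ {i - 1, i}, Real.tan (β j / 2) :=
      Finset.sum_nonneg fun j _ => (tan_half (hP.pos j) (hP.lt j)).2.1.le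
    linarith
  have key := hM n u β hP.toNm (fun j => H j - (-s) * δ j) (fun j => (1 : ℝ) - (-t) * δ j)
    (by
      intro j
      show 0 < (1 : ℝ) - (-t) * (if j = i then 1 else 0)
      split_ifs
      · linarith
      · linarith)
    (by rw [hg]; exact hTx0)
  have hlast : ∑ j, len β (fun j => H j - (-s) * δ j) j * ((1 : ℝ) - (-t) * δ j)
      = ∑ j, len β H j + s * m := by
    have : ∀ j, len β (fun j => H j - (-s) * δ j) j * ((1 : ℝ) - (-t) * δ j)
        = len β (fun j => H j - (-s) * δ j) j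
          + (t * len β (fun j => H j - (-s) * δ j) j) * δ j := by
      intro j; ring
    rw [Finset.sum_congr rfl fun j _ => this j, Finset.sum_add_distrib, sumδ, hlen', hsum']
    ring
  rw [hH', hg, hlast] at key
  exact key

end Pool.Agent.QUD.H96X

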